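import Pool.Agent.Helper92.RK.Defs

/-!
# IND: independence
-/

set_option autoImplicit false

namespace Pool.Agent.Helper70.RK.IND

open Pool.Agent.Helper92.RK Finset

open Classical in
theorem card_ind {n : ℕ} (E E' : (Fin n → Bool) → Prop) (A B : Finset (Fin n))
    (hAB : Disjoint A B) (hE : Dep E A) (hE' : Dep E' B) :
    ((univ.filter fun x => E x ∧ E' x) ×ˢ (univ : Finset (Fin n → Bool))).card =
      ((univ.filter E) ×ˢ (univ.filter E')).card := by
  let f : (Fin n → Bool) × (Fin n → Bool) → (Fin n → Bool) × (Fin n → Bool) := fun p =>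
    (fun i => if i ∈ B then p.2 i else p.1 i, fun i => if i ∈ B then p.1 i else p.2 i)
  have hff : ∀ p, f (f p) = p := by
    intro p
    refine Prod.ext ?_ ?_
    · funext i
      by_cases h : i ∈ B <;> simp [f, h]
    · funext i
      by_cases h : i ∈ B <;> simp [f, h]
  have hnB : ∀ i ∈ A, i ∉ B := fun i hi hb => (Finset.disjoint_left.mp hAB) hi hb
  refine Finset.card_nbij' f f ?_ ?_ (fun p _ => hff p) (fun p _ => hff p)
  · rintro ⟨x, y⟩ hp
    simp only [Finset.coe_product, Set.mem_prod, Finset.mem_coe, Finset.mem_filter,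
      Finset.mem_univ, true_and, and_true] at hp ⊢
    refine ⟨(hE x _ ?_).mp hp.1, (hE' x _ ?_).mp hp.2⟩
    · intro i hi
      simp [f, hnB i hi]
    · intro i hi
      simp [f, hi]
  · rintro ⟨x, y⟩ hp
    simp only [Finset.coe_product, Set.mem_prod, Finset.mem_coe, Finset.mem_filter,
      Finset.mem_univ, true_and, and_true] at hp ⊢
    refine ⟨(hE x _ ?_).mp hp.1, (hE' y _ ?_).mp hp.2⟩
    · intro i hi
      simp [f, hnB i hi]
    · intro i hi
      simp [f, hi]

theorem main : S_IND := by
  classical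
  intro n E E' A B hAB hE hE'
  have h := card_ind E E' A B hAB hE hE'
  rw [Finset.card_product, Finset.card_product, Finset.card_univ] at h
  have hc : Fintype.card (Fin n → Bool) = 2 ^ n := by simp
  rw [hc] at h
  have h' : ((univ.filter fun x => E x ∧ E' x).card : ℝ) * 2 ^ n =
      ((univ.filter E).card : ℝ) * ((univ.filter E').card : ℝ) := by
    exact_mod_cast h
  unfold pr
  have h2 : (2 : ℝ) ^ n ≠ 0 := by positivity
  rw [div_mul_div_comm, div_eq_div_iff h2 (mul_ne_zero h2 h2)]
  calc _ = (((univ.filter fun x => E x ∧ E' x).card : ℝ) * 2 ^ n) * 2 ^ n := by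
        ring_nf
        congr!
    _ = _ := by
        rw [h']

end Pool.Agent.Helper70.RK.IND
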