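import Pool.Agent.Helper92.RK.Defs

/-!
# SAT: the probability of a consistent term
-/

set_option autoImplicit false

namespace Pool.Agent.Helper70.RK.SAT

open Pool.Agent.Helper92.RK Finset

theorem pr_lit {n : ℕ} (i : Fin n) (b : Bool) : pr (fun x => x i = b) = 1 / 2 := by
  classical
  have h1 : (univ.filter fun x : Fin n → Bool => x i = b).card =
      (univ.filter fun x : Fin n → Bool => ¬ x i = b).card := by
    refine Finset.card_nbij' (fun x => fl x i) (fun x => fl x i) ?_ ?_ ?_ ?_
    · intro x hx
      simp only [Finset.coe_filter, Finset.mem_univ, true_and, Set.mem_ofPred_eq] at hx ⊢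
      simp [fl, hx]
    · intro x hx
      simp only [Finset.coe_filter, Finset.mem_univ, true_and, Set.mem_ofPred_eq] at hx ⊢
      simp only [fl, Function.update_self]
      cases hb : x i <;> cases b <;> simp_all
    · intro x _
      simp [fl]
    · intro x _
      simp [fl]
  have h2 := Finset.card_filter_add_card_filter_not (s := (univ : Finset (Fin n → Bool)))
    (p := fun x => x i = b)
  have hc : (univ : Finset (Fin n → Bool)).card = 2 ^ n := by simp
  rw [← h1, hc] at h2
  have h3 : 2 * ((univ.filter fun x : Fin n → Bool => x i = b).card : ℝ) = 2 ^ n := by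
    have : 2 * (univ.filter fun x : Fin n → Bool => x i = b).card = 2 ^ n := by omega
    exact_mod_cast this
  have h4 : (2 : ℝ) ^ n ≠ 0 := by positivity
  have h5 : pr (fun x : Fin n → Bool => x i = b) =
      ((univ.filter fun x : Fin n → Bool => x i = b).card : ℝ) / 2 ^ n := by
    unfold pr
    congr!
  rw [h5, div_eq_iff h4]
  linarith

theorem main (hI : S_IND) : S_SAT := by
  classical
  intro n T
  induction T using Finset.induction_on with
  | empty =>
    intro _
    have : (Sat (∅ : Tm n)) = fun _ => True := by
      funext x
      simp [Sat]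
    rw [this]
    unfold pr
    simp
  | insert l T hl ih =>
    intro hc
    have hcT : Con T := fun a ha b hb => hc a (Finset.mem_insert_of_mem ha) b
      (Finset.mem_insert_of_mem hb)
    have hS : Sat (insert l T) = fun x => x l.1 = l.2 ∧ Sat T x := by
      funext x
      simp [Sat]
    have hdis : Disjoint ({l.1} : Finset (Fin n)) (vr T) := by
      rw [Finset.disjoint_singleton_left]
      intro h
      obtain ⟨l', hl', he⟩ := Finset.mem_image.mp h
      have := hc l' (Finset.mem_insert_of_mem hl') l (Finset.mem_insert_self _ _) he
      rw [this] at hl'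
      exact hl hl'
    rw [hS, hI n (fun x => x l.1 = l.2) (Sat T) {l.1} (vr T) hdis ?_ ?_, ih hcT, pr_lit,
      Finset.card_insert_of_notMem hl, pow_succ]
    · ring
    · intro x y h
      change x l.1 = l.2 ↔ y l.1 = l.2
      rw [h l.1 (Finset.mem_singleton_self _)]
    · intro x y h
      have : ∀ l' ∈ T, x l'.1 = y l'.1 := fun l' hl' =>
        h _ (Finset.mem_image_of_mem _ hl')
      constructor
      · intro hx l' hl'
        rw [← this l' hl']
        exact hx l' hl'
      · intro hx l' hl'
        rw [this l' hl']
        exact hx l' hl'

end Pool.Agent.Helper70.RK.SAT
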